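import Pool.Agent.Run7.h502.PL.UNIb
import Pool.Agent.Run7.h286.PL.Stm
import Pool.Agent.Run7.h382.TG.REP
import Pool.Agent.Run7.h225.TS.Ovr2
import Pool.Agent.N765.PJ.Base
import Pool.Agent.N227.PJ.Ns
import Pool.Agent.N769.PJ.Int

/-!
# Project PRL (helper286), piece UNI (helper502)

Many classes with even valuations outside `S` (units and class group).
-/

set_option autoImplicit false
set_option linter.all false

open Polynomial IsDedekindDomain
open scoped nonZeroDivisors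

namespace Run7.h502.PL

open Pool.Agent.N874.PP (Ov Ev Sq1)
open Pool.Agent.N352.PJ (IsGen Crd dsc)
open Run7.h875.TS (sqL sz)
open Run7.h784.TG
open Run7.h286.PL

section main

variable {k K L O : Type} [Field k] [Field K] [Algebra k[X] K] [IsFractionRing k[X] K]
  [Field L] [Algebra K L] [Algebra k[X] L] [IsScalarTower k[X] K L] [CommRing O]
  [IsDedekindDomain O] [Algebra O L] [IsFractionRing O L] [Algebra k[X] O]
  [IsScalarTower k[X] O L] [IsIntegralClosure O k[X] L] {g : ℕ} {f : k[X][X]} {θ : L}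

theorem ov_uniq {P P' : k[X]} (hP : Irreducible P) (hP' : Irreducible P') (hm : P.Monic)
    (hm' : P'.Monic) {𝔓 : HeightOneSpectrum O} (h : Ov P 𝔓) (h' : Ov P' 𝔓) : P = P' := by
  have h1 : P ∣ P' := (Pool.Agent.N765.PJ.ov_iff hP h P').1 h'
  exact eq_of_monic_of_associated hm hm' ((hP.associated_of_dvd hP' h1))

include K L in
theorem ex_ov {P : k[X]} (hP : Irreducible P) : ∃ 𝔓 : HeightOneSpectrum O, Ov P 𝔓 := by
  have hinjO := Pool.Agent.N862.PP.algO_inj (K := K) (L := L) (O := O) (k := k)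
  haveI : Algebra.IsIntegral k[X] O := IsIntegralClosure.isIntegral_algebra k[X] L
  haveI : (Ideal.span {P}).IsPrime := (Ideal.span_singleton_prime hP.ne_zero).2 hP.prime
  obtain ⟨Q, hQ, hQP⟩ := Ideal.exists_ideal_over_prime_of_isIntegral_of_isDomain (S := O)
    (Ideal.span {P}) (by
      rw [(RingHom.injective_iff_ker_eq_bot _).1 hinjO]
      exact bot_le)
  have hov : algebraMap k[X] O P ∈ Q := by
    rw [← Ideal.mem_comap, hQP]
    exact Ideal.mem_span_singleton_self P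
  refine ⟨⟨Q, hQ, ?_⟩, hov⟩
  rintro rfl
  rw [Ideal.mem_bot] at hov
  exact hP.ne_zero (hinjO (by rw [hov, map_zero]))

/-- an integral norm -/
theorem nrm_int (K : Type) [Field K] [Algebra k[X] K] [IsFractionRing k[X] K] [Algebra K L]
    [IsScalarTower k[X] K L] (z : O) :
    ∃ m : k[X], algebraMap k[X] K m = Algebra.norm K (algebraMap O L z) := by
  have h1 : IsIntegral k[X] (algebraMap O L z) := Pool.Agent.N862.PP.isInt (L := L) z
  exact IsIntegrallyClosed.isIntegral_iff.mp (Algebra.isIntegral_norm K h1)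

/-- the norm of an element which is even over `Q` is even at `Q` -/
theorem nrm_ev (h : IsGen g K f θ) {Q : k[X]} (hQ : Irreducible Q) {v : HeightOneSpectrum k[X]}
    (hv : Q ∈ v.asIdeal) {s : L} (hs0 : s ≠ 0)
    (hev : ∀ 𝔓 : HeightOneSpectrum O, Ov Q 𝔓 → Ev 𝔓 s) : Ev v (Algebra.norm K s) := by
  have hfin := Run7.h225.TS.Ovr.fin_ov (K := K) (L := L) (O := O) hQ.ne_zero
  have hfd : FiniteDimensional K L := Pool.Agent.N227.PJ.fd h
  obtain ⟨t, ht⟩ := Pool.Agent.N227.PJ.exists_t (O := O) h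
  have hy : ∀ 𝔓 : HeightOneSpectrum O, ∃ y : L, Ov Q 𝔓 → y ≠ 0 ∧
      𝔓.valuation L s = 𝔓.valuation L y ^ 2 := by
    intro 𝔓
    by_cases hov : Ov Q 𝔓
    · obtain ⟨y, hy⟩ := hev 𝔓 hov
      refine ⟨y, fun _ => ⟨?_, hy⟩⟩
      rintro rfl
      rw [map_zero, zero_pow two_ne_zero] at hy
      exact hs0 ((Valuation.zero_iff _).1 hy)
    · exact ⟨0, fun h' => absurd h' hov⟩
  choose y hy using hy
  obtain ⟨β, hβ⟩ := Run7.h225.TS.Ovr.approx hfin y (fun 𝔓 h𝔓 => (hy 𝔓 h𝔓).1)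
  have hvβ : ∀ 𝔓 : HeightOneSpectrum O, Ov Q 𝔓 → 𝔓.valuation L β = 𝔓.valuation L (y 𝔓) := by
    intro 𝔓 h𝔓
    have e : β = y 𝔓 + (β - y 𝔓) := by ring
    rw [e]
    exact Valuation.map_add_eq_of_lt_left _ (hβ 𝔓 h𝔓)
  obtain ⟨𝔓₀, h𝔓₀⟩ := ex_ov (K := K) (L := L) (O := O) hQ
  have hβ0 : β ≠ 0 := by
    rintro rfl
    have h1 := hvβ 𝔓₀ h𝔓₀
    rw [map_zero] at h1
    exact (hy 𝔓₀ h𝔓₀).1 ((Valuation.zero_iff _).1 h1.symm)
  set x : L := s * (β⁻¹) ^ 2 with hx
  have hx0 : x ≠ 0 := mul_ne_zero hs0 (pow_ne_zero 2 (inv_ne_zero hβ0))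
  have hv1 : ∀ 𝔓 : HeightOneSpectrum O, Ov Q 𝔓 → 𝔓.valuation L x = 1 := by
    intro 𝔓 h𝔓
    have h3 : 𝔓.valuation L (y 𝔓) ≠ 0 := (Valuation.ne_zero_iff _).2 (hy 𝔓 h𝔓).1
    rw [hx, map_mul, map_pow, map_inv₀, hvβ 𝔓 h𝔓, (hy 𝔓 h𝔓).2, inv_pow,
      mul_inv_cancel₀ (pow_ne_zero 2 h3)]
  obtain ⟨c, z, hc, hz⟩ := Pool.Agent.N227.PJ.exists_den_Q (K := K) h ht hQ x
    (fun 𝔓 h𝔓 => (hv1 𝔓 h𝔓).le)
  obtain ⟨c', z', hc', hz'⟩ := Pool.Agent.N227.PJ.exists_den_Q (K := K) h ht hQ x⁻¹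
    (fun 𝔓 h𝔓 => by rw [map_inv₀, hv1 𝔓 h𝔓, inv_one])
  obtain ⟨m, hm⟩ := nrm_int (k := k) (L := L) K z
  obtain ⟨m', hm'⟩ := nrm_int (k := k) (L := L) K z'
  have hvc : ∀ c : k[X], ¬ Q ∣ c → v.valuation K (algebraMap k[X] K c) = 1 := by
    intro c hc
    refine v.valuation_eq_one_iff_notMem.mpr fun h3 => hc ?_
    by_contra hn
    obtain ⟨a, b, hab⟩ : IsCoprime Q c := (hQ.coprime_iff_not_dvd).mpr hn
    apply v.isPrime.ne_top
    rw [Ideal.eq_top_iff_one, ← hab]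
    exact Ideal.add_mem _ (Ideal.mul_mem_left _ _ hv) (Ideal.mul_mem_left _ _ h3)
  have e1 : algebraMap k[X] K m = algebraMap k[X] K c ^ Module.finrank K L * Algebra.norm K x := by
    rw [hm, ← hz, map_mul, IsScalarTower.algebraMap_apply k[X] K L, Algebra.norm_algebraMap]
  have e2 : algebraMap k[X] K m' = algebraMap k[X] K c' ^ Module.finrank K L * (Algebra.norm K x)⁻¹ := by
    have hinv : Algebra.norm K x⁻¹ = (Algebra.norm K x)⁻¹ :=
      eq_inv_of_mul_eq_one_left (by rw [← map_mul, inv_mul_cancel₀ hx0, map_one])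
    rw [hm', ← hz', map_mul, IsScalarTower.algebraMap_apply k[X] K L, Algebra.norm_algebraMap,
      hinv]
  have h1 : v.valuation K (Algebra.norm K x) ≤ 1 := by
    have h3 : v.valuation K (algebraMap k[X] K m) ≤ 1 := v.valuation_le_one m
    rw [e1, map_mul, map_pow, hvc c hc, one_pow, one_mul] at h3
    exact h3
  have h2 : (v.valuation K (Algebra.norm K x))⁻¹ ≤ 1 := by
    have h3 : v.valuation K (algebraMap k[X] K m') ≤ 1 := v.valuation_le_one m'
    rw [e2, map_mul, map_pow, hvc c' hc', one_pow, one_mul, map_inv₀] at h3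
    exact h3
  have hN0 : Algebra.norm K x ≠ 0 := by
    rw [Ne, Algebra.norm_eq_zero_iff]; exact hx0
  have hvN : v.valuation K (Algebra.norm K x) ≠ 0 := (Valuation.ne_zero_iff _).2 hN0
  have h3 : v.valuation K (Algebra.norm K x) = 1 :=
    le_antisymm h1 ((inv_le_one₀ (zero_lt_iff.2 hvN)).1 h2)
  have e3 : Algebra.norm K s = Algebra.norm K x * Algebra.norm K β ^ 2 := by
    rw [← map_pow, ← map_mul, hx]
    congr 1
    field_simp
  refine ⟨Algebra.norm K β, ?_⟩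
  rw [e3, map_mul, h3, one_mul, map_pow]

/-- `RelG` is the group of the elements with even valuations outside `V` and square norm -/
theorem relC_iff [Finite k] (S : Finset k[X]) (hS : ∀ P ∈ S, P.Monic ∧ Irreducible P)
    (V : Set (HeightOneSpectrum O)) (hV : ∀ 𝔓, 𝔓 ∈ V ↔ ∃ P ∈ S, Ov P 𝔓) (α : Lˣ) :
    RelC O K S (α : L) ↔ α ∈ (EL V : Subgroup Lˣ) ⊓
      (powMonoidHom 2 : Kˣ →* Kˣ).range.comap (Units.map (Algebra.norm K : L →* K)) := by
  have hn : IsSquare (Algebra.norm K (α : L)) ↔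
      α ∈ (powMonoidHom 2 : Kˣ →* Kˣ).range.comap (Units.map (Algebra.norm K : L →* K)) := by
    rw [Subgroup.mem_comap]
    constructor
    · rintro ⟨r, hr⟩
      have hr0 : r ≠ 0 := by
        rintro rfl
        have h1 := (Units.map (Algebra.norm K : L →* K) α).ne_zero
        apply h1
        rw [Units.coe_map]
        simpa using hr
      refine ⟨Units.mk0 r hr0, ?_⟩
      apply Units.ext
      rw [powMonoidHom_apply, Units.val_pow_eq_pow_val, Units.val_mk0, Units.coe_map, sq]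
      exact hr.symm
    · rintro ⟨r, hr⟩
      refine ⟨(r : K), ?_⟩
      have h1 := congrArg Units.val hr
      rw [powMonoidHom_apply, Units.val_pow_eq_pow_val, Units.coe_map, sq] at h1
      exact h1.symm
  constructor
  · intro h
    refine Subgroup.mem_inf.2 ⟨?_, hn.1 h.nsq⟩
    intro 𝔓 h𝔓
    obtain ⟨P, hPm, hPi, hov⟩ := Run7.h225.TS.REP.below (k := k) (L := L) 𝔓
    exact h.ev P hPm hPi (fun hPS => h𝔓 ((hV 𝔓).2 ⟨P, hPS, hov⟩)) 𝔓 hov
  · intro h
    obtain ⟨h1, h2⟩ := Subgroup.mem_inf.1 h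
    refine ⟨α.ne_zero, hn.2 h2, ?_⟩
    intro P hPm hPi hPS 𝔓 hov
    refine h1 𝔓 fun h3 => hPS ?_
    obtain ⟨P', hP', hov'⟩ := (hV 𝔓).1 h3
    rw [ov_uniq hPi (hS P' hP').2 hPm (hS P' hP').1 hov hov']
    exact hP'

end main

theorem T_UNI : P_UNI := by
  classical
  intro k K L O _ _ _ _ _ _ _ _ _ _ _ _ _ _ _ _ g N r f θ hF h S hS
  have hd : dsc g f ≠ 0 := hF.fam.sq.ne_zero
  have hfd : FiniteDimensional K L := Pool.Agent.N227.PJ.fd h
  haveI : Algebra.IsSeparable K L := Pool.Agent.N769.PJ.isSep h hd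
  haveI : Fintype k := Fintype.ofFinite k
  haveI : Fintype (ClassGroup O) := ClassGroup.fintypeOfAdmissibleOfFinite K L
    (Polynomial.cardPowDegreeIsAdmissible :
      AbsoluteValue.IsAdmissible (Polynomial.cardPowDegree : AbsoluteValue k[X] ℤ))
  have hfin : ∀ P ∈ S, {𝔓 : HeightOneSpectrum O | Ov P 𝔓}.Finite := fun P hP =>
    Run7.h225.TS.Ovr.fin_ov (K := K) (L := L) (O := O) (hS P hP).2.ne_zero
  set F : k[X] → Finset (HeightOneSpectrum O) := fun P =>
    if hP : {𝔓 : HeightOneSpectrum O | Ov P 𝔓}.Finite then hP.toFinset else ∅ with hFd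
  have hFm : ∀ P ∈ S, ∀ 𝔓, 𝔓 ∈ F P ↔ Ov P 𝔓 := by
    intro P hP 𝔓
    simp only [hFd, dif_pos (hfin P hP), Set.Finite.mem_toFinset, Set.mem_setOf_eq]
  set V : Finset (HeightOneSpectrum O) := S.biUnion F with hVd
  have hV : ∀ 𝔓, 𝔓 ∈ (V : Set (HeightOneSpectrum O)) ↔ ∃ P ∈ S, Ov P 𝔓 := by
    intro 𝔓
    rw [Finset.mem_coe, hVd, Finset.mem_biUnion]
    exact ⟨fun ⟨P, hP, h1⟩ => ⟨P, hP, (hFm P hP 𝔓).1 h1⟩, fun ⟨P, hP, h1⟩ => ⟨P, hP, (hFm P hP 𝔓).2 h1⟩⟩
  set NS : Subgroup Lˣ := (powMonoidHom 2 : Kˣ →* Kˣ).range.comap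
    (Units.map (Algebra.norm K : L →* K)) with hNS
  have hiff : ∀ α : Lˣ, RelC O K S (α : L) ↔ α ∈ (EL (V : Set (HeightOneSpectrum O)) : Subgroup Lˣ) ⊓ NS :=
    fun α => relC_iff (k := k) (K := K) S hS _ hV α
  have hG : (RelG O K S : Subgroup Lˣ) = EL (V : Set (HeightOneSpectrum O)) ⊓ NS := by
    have e : {α : Lˣ | RelC O K S (α : L)} =
        ((EL (V : Set (HeightOneSpectrum O)) ⊓ NS : Subgroup Lˣ) : Set Lˣ) := by
      ext α
      exact hiff α
    rw [RelG, e, Subgroup.closure_eq]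
  have hsqL : sqL L = (powMonoidHom 2 : Lˣ →* Lˣ).range := rfl
  have hsqNS : (powMonoidHom 2 : Lˣ →* Lˣ).range ≤ NS := by
    rintro _ ⟨x, rfl⟩
    rw [hNS, Subgroup.mem_comap]
    exact ⟨Units.map (Algebra.norm K : L →* K) x, by simp⟩
  have hsq : sqL L ≤ (RelG O K S : Subgroup Lˣ) := by
    rw [hG, hsqL]
    exact le_inf (sq_le_EL _) hsqNS
  -- the group for the empty set
  have hiff0 : ∀ α : Lˣ, RelC O K (∅ : Finset k[X]) (α : L) ↔
      α ∈ (EL (∅ : Set (HeightOneSpectrum O)) : Subgroup Lˣ) ⊓ NS :=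
    fun α => relC_iff (k := k) (K := K) ∅ (by simp) ∅ (by simp) α
  have hR0 : (powMonoidHom 2 : Lˣ →* Lˣ).range.relIndex
      ((EL (∅ : Set (HeightOneSpectrum O)) : Subgroup Lˣ) ⊓ NS) ≠ 0 := by
    have hgt : GoodT g f (∅ : Finset k[X]) (fun _ => 1) := ⟨by simp, by simp, by simp, by simp⟩
    have hs : ∀ α : Lˣ, SelC O K f θ (∅ : Finset k[X]) (fun _ => 1) (α : L) ↔
        α ∈ (EL (∅ : Set (HeightOneSpectrum O)) : Subgroup Lˣ) ⊓ NS := by
      intro α
      rw [← hiff0]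
      constructor
      · intro h1
        exact ⟨h1.ne, h1.nsq, h1.ev⟩
      · intro h1
        exact ⟨h1.ne, h1.nsq, h1.ev, by simp⟩
    have hSG : SelG O K f θ (∅ : Finset k[X]) (fun _ => 1) =
        (EL (∅ : Set (HeightOneSpectrum O)) : Subgroup Lˣ) ⊓ NS := by
      have e : {α : Lˣ | SelC O K f θ (∅ : Finset k[X]) (fun _ => 1) (α : L)} =
          ((EL (∅ : Set (HeightOneSpectrum O)) ⊓ NS : Subgroup Lˣ) : Set Lˣ) := by
        ext α
        exact hs α
      rw [SelG, e, Subgroup.closure_eq]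
    have h1 := (Run7.h382.TG.REP.T_REP k K L O g N r f θ hF h).2 ∅ (fun _ => 1) hgt
      (fun α => by rw [hSG]; exact (hs α).symm)
    rw [hSG] at h1
    exact h1
  have hE0 : ((EL (∅ : Set (HeightOneSpectrum O)) : Subgroup Lˣ) ⊓ NS).relIndex
      (EL (V : Set (HeightOneSpectrum O)) ⊓ NS) ≠ 0 := by
    have e : ((EL (∅ : Set (HeightOneSpectrum O)) : Subgroup Lˣ) ⊓ NS).relIndex
        (EL (V : Set (HeightOneSpectrum O)) ⊓ NS) =
        (EL (∅ : Set (HeightOneSpectrum O)) : Subgroup Lˣ).relIndex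
          (EL (V : Set (HeightOneSpectrum O)) ⊓ NS) := by
      rw [← Subgroup.inf_relIndex_right (EL (∅ : Set (HeightOneSpectrum O)) : Subgroup Lˣ)
        (EL (V : Set (HeightOneSpectrum O)) ⊓ NS),
        ← Subgroup.inf_relIndex_right ((EL (∅ : Set (HeightOneSpectrum O)) : Subgroup Lˣ) ⊓ NS)
        (EL (V : Set (HeightOneSpectrum O)) ⊓ NS)]
      congr 1
      ext x
      simp only [Subgroup.mem_inf]
      tauto
    rw [e]
    exact fun h0 => EL_fin V (Subgroup.relIndex_eq_zero_of_le_right inf_le_left h0)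
  have hmono : (EL (∅ : Set (HeightOneSpectrum O)) : Subgroup Lˣ) ⊓ NS ≤
      EL (V : Set (HeightOneSpectrum O)) ⊓ NS := inf_le_inf_right _ (EL_mono (Set.empty_subset _))
  have hsz : sz (RelG O K S : Subgroup Lˣ) ≠ 0 := by
    rw [sz, hG, hsqL, ← Subgroup.relIndex_mul_relIndex _ _ _ (le_inf (sq_le_EL _) hsqNS) hmono]
    exact mul_ne_zero hR0 hE0
  refine ⟨fun α => by rw [hG]; exact (hiff α).symm, hsq, hsz, ?_⟩
  -- the norm
  have hNE : (EL (V : Set (HeightOneSpectrum O)) : Subgroup Lˣ).map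
      (Units.map (Algebra.norm K : L →* K)) ≤ EL (VS S) := by
    rintro _ ⟨α, hα, rfl⟩ v hv
    obtain ⟨Q, hQ⟩ : ∃ Q : k[X], v.asIdeal = Ideal.span {Q} :=
      (IsPrincipalIdealRing.principal v.asIdeal).principal
    have hQ0 : Q ≠ 0 := by
      rintro rfl
      apply v.ne_bot
      rw [hQ]
      simp
    have hQi : Irreducible Q := by
      have h1 : (Ideal.span {Q}).IsPrime := by rw [← hQ]; exact v.isPrime
      exact ((Ideal.span_singleton_prime hQ0).1 h1).irreducible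
    have hQv : Q ∈ v.asIdeal := by rw [hQ]; exact Ideal.mem_span_singleton_self Q
    refine nrm_ev (K := K) h hQi hQv α.ne_zero fun 𝔓 hov => hα 𝔓 fun h1 => hv ?_
    obtain ⟨P, hP, hovP⟩ := (hV 𝔓).1 h1
    have h2 : Q ∣ P := (Pool.Agent.N765.PJ.ov_iff hQi hov P).1 hovP
    exact ⟨P, hP, by rw [hQ, Ideal.mem_span_singleton]; exact h2⟩
  obtain ⟨hu0, hu⟩ := upper (K := K) S fun P hP => (hS P hP).2
  have hidx : NS.relIndex (EL (V : Set (HeightOneSpectrum O))) ≠ 0 ∧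
      NS.relIndex (EL (V : Set (HeightOneSpectrum O))) ≤ 2 ^ (S.card + 1) := by
    rw [hNS, Subgroup.relIndex_comap]
    exact ⟨fun h0 => hu0 (Subgroup.relIndex_eq_zero_of_le_right hNE h0),
      (Subgroup.relIndex_le_of_le_right hNE hu0).trans hu⟩
  have hchain : (powMonoidHom 2 : Lˣ →* Lˣ).range.relIndex
      (EL (V : Set (HeightOneSpectrum O)) ⊓ NS) *
      NS.relIndex (EL (V : Set (HeightOneSpectrum O))) =
      (powMonoidHom 2 : Lˣ →* Lˣ).range.relIndex (EL (V : Set (HeightOneSpectrum O))) := by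
    rw [← Subgroup.relIndex_mul_relIndex (powMonoidHom 2 : Lˣ →* Lˣ).range
      (EL (V : Set (HeightOneSpectrum O)) ⊓ NS) (EL (V : Set (HeightOneSpectrum O)))
      (le_inf (sq_le_EL _) hsqNS) inf_le_left, inf_comm, Subgroup.inf_relIndex_right]
  have hszd : sz (RelG O K S : Subgroup Lˣ) = (powMonoidHom 2 : Lˣ →* Lˣ).range.relIndex
      (EL (V : Set (HeightOneSpectrum O)) ⊓ NS) := by rw [sz, hG, hsqL]
  -- a nonsquare constant
  obtain ⟨c, hc⟩ : ∃ c : k, ¬ IsSquare c := FiniteField.exists_nonsquare (by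
    intro h0
    have h2 := hF.two
    haveI := ringChar.of_eq h0
    exact h2 (CharTwo.two_eq_zero))
  have hc0 : c ≠ 0 := by
    rintro rfl
    exact hc ⟨0, by simp⟩
  have hinj := Pool.Agent.N765.PJ.inj_L (k := k) (L := L) K
  have hcL : algebraMap k[X] L (C c) ≠ 0 := by
    intro h0
    exact hc0 (C_eq_zero.1 (hinj (by rw [h0, map_zero])))
  have hν : ∀ v : HeightOneSpectrum O, v.valuation L (algebraMap k[X] L (C c)) = 1 := by
    intro v
    rw [← Pool.Agent.N765.PJ.mapO (O := O)]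
    refine v.valuation_eq_one_iff_notMem.mpr fun h3 => v.isPrime.ne_top ?_
    refine Ideal.eq_top_of_isUnit_mem _ h3 ?_
    exact ((isUnit_C.2 (IsUnit.mk0 c hc0)).map (algebraMap k[X] O))
  have hν2 : ¬ IsSquare (algebraMap k[X] L (C c)) := by
    rintro ⟨y, hy⟩
    have h1 := congrArg (Algebra.norm K) hy
    rw [map_mul, IsScalarTower.algebraMap_apply k[X] K L, Algebra.norm_algebraMap, h.rank] at h1
    have hcK : algebraMap k[X] K (C c) ≠ 0 := by
      rw [Ne, FaithfulSMul.algebraMap_eq_zero_iff, C_eq_zero]; exact hc0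
    have h2 : algebraMap k[X] K (C c) =
        (Algebra.norm K y / algebraMap k[X] K (C c) ^ g) ^ 2 := by
      rw [div_pow, sq (Algebra.norm K y), ← h1]
      field_simp
      ring
    have hint : IsIntegral k[X] (Algebra.norm K y / algebraMap k[X] K (C c) ^ g) := by
      refine IsIntegral.of_pow (n := 2) (by norm_num) ?_
      rw [← h2]
      exact isIntegral_algebraMap
    obtain ⟨m, hm⟩ := IsIntegrallyClosed.isIntegral_iff.mp hint
    rw [← hm, ← map_pow] at h2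
    have h3 := IsFractionRing.injective k[X] K h2
    have h4 := congrArg leadingCoeff h3
    rw [leadingCoeff_C, leadingCoeff_pow] at h4
    exact hc ⟨m.leadingCoeff, by rw [h4, sq]⟩
  have hlow := even_lower (L := L) V (Units.mk0 _ hcL) hν hν2 (by
    rw [← hchain]
    exact mul_ne_zero (by rw [← hszd]; exact hsz) hidx.1)
  rw [← hchain, ← hszd] at hlow
  -- the count
  have hcard : V.card = ∑ P ∈ S, nr O P := by
    rw [hVd, Finset.card_biUnion]
    · refine Finset.sum_congr rfl fun P hP => ?_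
      rw [nr, Set.ncard_eq_toFinset_card _ (hfin P hP)]
      simp only [hFd, dif_pos (hfin P hP)]
    · intro P hP P' hP' hne
      rw [Function.onFun, Finset.disjoint_left]
      intro 𝔓 h1 h2
      exact hne (ov_uniq (hS P hP).2 (hS P' hP').2 (hS P hP).1 (hS P' hP').1
        ((hFm P hP 𝔓).1 h1) ((hFm P' hP' 𝔓).1 h2))
  have hnr : ∀ P ∈ S, 1 ≤ nr O P := by
    intro P hP
    obtain ⟨𝔓, h𝔓⟩ := ex_ov (K := K) (L := L) (O := O) (hS P hP).2
    exact (Set.ncard_pos (hfin P hP)).2 ⟨𝔓, h𝔓⟩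
  have hsum : ∑ P ∈ S, (nr O P - 1) + S.card = V.card := by
    rw [hcard, Finset.card_eq_sum_ones, ← Finset.sum_add_distrib]
    refine Finset.sum_congr rfl fun P hP => ?_
    have := hnr P hP
    omega
  have h1 : 2 ^ (V.card + 1) ≤ sz (RelG O K S : Subgroup Lˣ) * 2 ^ (S.card + 1) :=
    hlow.trans (Nat.mul_le_mul_left _ hidx.2)
  have h2 : 2 ^ (∑ P ∈ S, (nr O P - 1)) * 2 ^ (S.card + 1) ≤
      sz (RelG O K S : Subgroup Lˣ) * 2 ^ (S.card + 1) := by
    rw [← pow_add, ← add_assoc, hsum]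
    exact h1
  exact Nat.le_of_mul_le_mul_right h2 (by positivity)

end Run7.h502.PL
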