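import Pool.Agent.N862.PP.Nrm
import Pool.Agent.N539.PP.Cls

/-!
# Project PRL (helper286), piece UNI (helper502): the abstract part

Units and class groups: the elements with even valuations outside a finite set of primes.
-/

set_option autoImplicit false
set_option linter.all false

open Polynomial IsDedekindDomain
open scoped nonZeroDivisors

namespace Run7.h502.PL

open Pool.Agent.N874.PP (Ov Ev Sq1)

/-- the group theory -/
theorem grp {H I : Type} [CommGroup H] [CommGroup I] (d : H →* I) (E2 : Subgroup I) (N : ℕ)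
    (hinj : Function.Injective (powMonoidHom 2 : I →* I))
    (hsq : (powMonoidHom 2 : I →* I).range ≤ E2) (hP : d.range.index ≠ 0)
    (ν : H) (hν : d ν = 1) (hν2 : ν ∉ (powMonoidHom 2 : H →* H).range)
    (hfin : (powMonoidHom 2 : H →* H).range.relIndex (E2.comap d) ≠ 0)
    (hN : (powMonoidHom 2 : I →* I).range.relIndex E2 ≠ 0 →
      N ≤ (powMonoidHom 2 : I →* I).range.relIndex E2) :
    2 * N ≤ (powMonoidHom 2 : H →* H).range.relIndex (E2.comap d) := by
  set P := d.range with hPd
  set sH := (powMonoidHom 2 : H →* H).range with hsH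
  set sI := (powMonoidHom 2 : I →* I).range with hsI
  set sP := P.map (powMonoidHom 2 : I →* I) with hsP
  set T := P.comap (powMonoidHom 2 : I →* I) with hT
  have hker : d.ker ≤ E2.comap d := by
    intro x hx
    rw [Subgroup.mem_comap, (MonoidHom.mem_ker).1 hx]
    exact one_mem _
  have hsHE : sH ≤ E2.comap d := by
    rintro _ ⟨x, rfl⟩
    rw [Subgroup.mem_comap]
    apply hsq
    exact ⟨d x, by simp⟩
  have h1 : sH.relIndex (sH ⊔ d.ker) * (sH ⊔ d.ker).relIndex (E2.comap d) =
      sH.relIndex (E2.comap d) :=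
    Subgroup.relIndex_mul_relIndex _ _ _ le_sup_left (sup_le hsHE hker)
  have ha0 : sH.relIndex (sH ⊔ d.ker) ≠ 0 := fun h => hfin (by rw [← h1, h, zero_mul])
  have hb0 : (sH ⊔ d.ker).relIndex (E2.comap d) ≠ 0 := fun h => hfin (by rw [← h1, h, mul_zero])
  have ha2 : 2 ≤ sH.relIndex (sH ⊔ d.ker) := by
    have hne : sH.relIndex (sH ⊔ d.ker) ≠ 1 := by
      intro h
      rw [Subgroup.relIndex_eq_one] at h
      exact hν2 (h ((le_sup_right : d.ker ≤ sH ⊔ d.ker) ((MonoidHom.mem_ker).2 hν)))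
    omega
  have h2 : (sH ⊔ d.ker).relIndex (E2.comap d) = sP.relIndex (E2 ⊓ P) := by
    have e1 := Subgroup.relIndex_map_map d sH (E2.comap d)
    have e2 : E2.comap d ⊔ d.ker = E2.comap d := sup_eq_left.2 hker
    rw [e2] at e1
    rw [← e1, Subgroup.map_comap_eq, inf_comm]
    congr 1
    ext x
    constructor
    · rintro ⟨_, ⟨y, rfl⟩, rfl⟩
      exact ⟨d y, ⟨y, rfl⟩, by simp⟩
    · rintro ⟨_, ⟨y, rfl⟩, rfl⟩
      exact ⟨y ^ 2, ⟨y, rfl⟩, by simp⟩
  have hsPle : sP ≤ sI ⊓ P := by
    rintro _ ⟨y, hy, rfl⟩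
    exact ⟨⟨y, rfl⟩, by simpa using P.pow_mem hy 2⟩
  have h3 : sP.relIndex (sI ⊓ P) * (sI ⊓ P).relIndex (E2 ⊓ P) = sP.relIndex (E2 ⊓ P) :=
    Subgroup.relIndex_mul_relIndex _ _ _ hsPle (inf_le_inf_right _ hsq)
  have h4 : sP.relIndex (sI ⊓ P) = P.relIndex T := by
    have e1 : T.map (powMonoidHom 2 : I →* I) = sI ⊓ P := by
      rw [hT, Subgroup.map_comap_eq]
    rw [← e1, hsP]
    exact Subgroup.relIndex_map_map_of_injective P T hinj
  have h5 : P.relIndex T = (sI ⊔ P).index := by
    have e1 : P ≤ T := by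
      intro x hx
      rw [hT, Subgroup.mem_comap]
      simpa using P.pow_mem hx 2
    have e2 : P.relIndex T * T.index = P.index := Subgroup.relIndex_mul_index e1
    have e3 : T.index = P.relIndex sI := Subgroup.index_comap P (powMonoidHom 2 : I →* I)
    have e4 : P.relIndex (sI ⊔ P) * (sI ⊔ P).index = P.index :=
      Subgroup.relIndex_mul_index le_sup_right
    have e5 : P.relIndex (sI ⊔ P) = P.relIndex sI := Subgroup.relIndex_sup_right _ _
    rw [e5] at e4
    rw [e3] at e2
    have e6 : P.relIndex sI ≠ 0 := fun h => hP (by rw [← e4, h, zero_mul])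
    have e7 : P.relIndex T * P.relIndex sI = (sI ⊔ P).index * P.relIndex sI := by
      rw [e2, ← e4, mul_comm]
    exact Nat.eq_of_mul_eq_mul_right (Nat.pos_of_ne_zero e6) e7
  have h6 : (sI ⊓ P).relIndex (E2 ⊓ P) = sI.relIndex (E2 ⊓ P) := by
    rw [← Subgroup.inf_relIndex_right sI (E2 ⊓ P), ← Subgroup.inf_relIndex_right (sI ⊓ P) (E2 ⊓ P)]
    congr 1
    ext x
    simp only [Subgroup.mem_inf]
    tauto
  have h7 : sI.relIndex (E2 ⊓ P) * (sI ⊔ (E2 ⊓ P)).relIndex E2 = sI.relIndex E2 := by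
    have e1 : sI.relIndex (sI ⊔ (E2 ⊓ P)) * (sI ⊔ (E2 ⊓ P)).relIndex E2 = sI.relIndex E2 :=
      Subgroup.relIndex_mul_relIndex _ _ _ le_sup_left (sup_le hsq inf_le_left)
    rw [sup_comm, Subgroup.relIndex_sup_right, sup_comm] at e1
    exact e1
  have hPI : (sI ⊔ P).index ≠ 0 := by
    intro h
    have e4 : P.relIndex (sI ⊔ P) * (sI ⊔ P).index = P.index :=
      Subgroup.relIndex_mul_index le_sup_right
    exact hP (by rw [← e4, h, mul_zero])
  have h8 : (sI ⊔ (E2 ⊓ P)).relIndex E2 ≤ (sI ⊔ P).index := by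
    have e1 : (sI ⊔ (E2 ⊓ P)) = (sI ⊔ P) ⊓ E2 := by
      rw [inf_comm E2 P, sup_inf_assoc_of_le P hsq]
    rw [e1, Subgroup.inf_relIndex_right]
    exact Nat.le_of_dvd (Nat.pos_of_ne_zero hPI) (Subgroup.relIndex_dvd_index_of_normal _ _)
  have h9 : (sI ⊔ (E2 ⊓ P)).relIndex E2 ≠ 0 := by
    have e1 : (sI ⊔ (E2 ⊓ P)) = (sI ⊔ P) ⊓ E2 := by
      rw [inf_comm E2 P, sup_inf_assoc_of_le P hsq]
    rw [e1, Subgroup.inf_relIndex_right]
    intro h
    have := Subgroup.relIndex_dvd_index_of_normal (sI ⊔ P) E2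
    rw [h, zero_dvd_iff] at this
    exact hPI this
  rw [h2, ← h3] at hb0
  have hc0 : sI.relIndex (E2 ⊓ P) ≠ 0 := by
    rw [← h6]
    exact fun h => hb0 (by rw [h, mul_zero])
  have hN' : N ≤ sI.relIndex E2 := hN (by rw [← h7]; exact mul_ne_zero hc0 h9)
  rw [← h1, h2, ← h3, h4, h5, h6]
  refine Nat.mul_le_mul ha2 ?_
  calc N ≤ sI.relIndex (E2 ⊓ P) * (sI ⊔ (E2 ⊓ P)).relIndex E2 := by rw [h7]; exact hN'
    _ ≤ sI.relIndex (E2 ⊓ P) * (sI ⊔ P).index := Nat.mul_le_mul_left _ h8
    _ = (sI ⊔ P).index * sI.relIndex (E2 ⊓ P) := mul_comm _ _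

section dd

variable {O L : Type} [CommRing O] [IsDedekindDomain O] [Field L] [Algebra O L]
  [IsFractionRing O L]

/-- the exponent of a prime in a fractional ideal -/
noncomputable def cnt (v : HeightOneSpectrum O) : (FractionalIdeal O⁰ L)ˣ →* Multiplicative ℤ where
  toFun J := Multiplicative.ofAdd (FractionalIdeal.count L v (J : FractionalIdeal O⁰ L))
  map_one' := by simp [FractionalIdeal.count_one]
  map_mul' J J' := by
    rw [Units.val_mul, FractionalIdeal.count_mul L v J.ne_zero J'.ne_zero]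
    rfl

/-- the fractional ideals with even exponents outside `V` -/
def EI (V : Set (HeightOneSpectrum O)) : Subgroup (FractionalIdeal O⁰ L)ˣ where
  carrier := {J | ∀ v ∉ V, Even (FractionalIdeal.count L v (J : FractionalIdeal O⁰ L))}
  one_mem' := by
    intro v _
    rw [Units.val_one, FractionalIdeal.count_one]
    exact Even.zero
  mul_mem' := by
    intro J J' h h' v hv
    rw [Units.val_mul, FractionalIdeal.count_mul L v J.ne_zero J'.ne_zero]
    exact (h v hv).add (h' v hv)
  inv_mem' := by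
    intro J h v hv
    rw [Units.val_inv_eq_inv_val, FractionalIdeal.count_inv]
    exact (h v hv).neg

/-- the elements with even valuations outside `V` -/
def EL (V : Set (HeightOneSpectrum O)) : Subgroup Lˣ where
  carrier := {x | ∀ v ∉ V, Ev v (x : L)}
  one_mem' := by
    intro v _
    exact ⟨1, by simp⟩
  mul_mem' := by
    intro x y hx hy v hv
    exact (Pool.Agent.N539.PP.ev_mul v x.ne_zero y.ne_zero).2 (iff_of_true (hx v hv) (hy v hv))
  inv_mem' := by
    intro x hx v hv
    obtain ⟨y, hy⟩ := hx v hv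
    refine ⟨y⁻¹, ?_⟩
    rw [Units.val_inv_eq_inv_val, map_inv₀, map_inv₀, hy, inv_pow]

open FractionalIdeal in
theorem val_cnt (v : HeightOneSpectrum O) (x : Lˣ) :
    v.valuation L (x : L) = WithZero.exp (-(count L v (toPrincipalIdeal O L x : FractionalIdeal O⁰ L))) := by
  classical
  obtain ⟨n, d, hd, hx⟩ := IsFractionRing.div_surjective (A := O) (x : L)
  have hd0 : d ≠ 0 := nonZeroDivisors.ne_zero hd
  have hn0 : n ≠ 0 := by
    rintro rfl
    rw [map_zero, zero_div] at hx
    exact x.ne_zero hx.symm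
  have e1 : (toPrincipalIdeal O L x : FractionalIdeal O⁰ L) =
      spanSingleton O⁰ ((algebraMap O L) d)⁻¹ * ((Ideal.span {n} : Ideal O) : FractionalIdeal O⁰ L) := by
    rw [coe_toPrincipalIdeal, coeIdeal_span_singleton, spanSingleton_mul_spanSingleton, ← hx]
    congr 1
    rw [div_eq_mul_inv, mul_comm]
  rw [count_well_defined L v (Units.ne_zero _) e1, ← hx, map_div₀,
    HeightOneSpectrum.valuation_of_algebraMap, HeightOneSpectrum.valuation_of_algebraMap,
    v.intValuation_if_neg hn0, v.intValuation_if_neg hd0, ← WithZero.exp_sub]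
  congr 1
  ring

theorem ev_cnt (v : HeightOneSpectrum O) (x : Lˣ) :
    Ev v (x : L) ↔ Even (FractionalIdeal.count L v (toPrincipalIdeal O L x : FractionalIdeal O⁰ L)) := by
  rw [Pool.Agent.N539.PP.ev_iff v x.ne_zero, val_cnt, WithZero.log_exp, even_neg]

theorem sq_inj : Function.Injective
    (powMonoidHom 2 : (FractionalIdeal O⁰ L)ˣ →* (FractionalIdeal O⁰ L)ˣ) := by
  intro J J' h
  have hc : ∀ v : HeightOneSpectrum O, FractionalIdeal.count L v (J : FractionalIdeal O⁰ L) =
      FractionalIdeal.count L v (J' : FractionalIdeal O⁰ L) := by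
    intro v
    have h1 := congrArg (fun I : (FractionalIdeal O⁰ L)ˣ =>
      FractionalIdeal.count L v (I : FractionalIdeal O⁰ L)) h
    simp only [powMonoidHom_apply, Units.val_pow_eq_pow_val, FractionalIdeal.count_pow] at h1
    push_cast at h1
    omega
  apply Units.ext
  rw [← FractionalIdeal.finprod_heightOneSpectrum_factorization' L J.ne_zero,
    ← FractionalIdeal.finprod_heightOneSpectrum_factorization' L J'.ne_zero]
  simp only [hc]

/-- the parities of the exponents at the primes of `V` -/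
noncomputable def par (V : Finset (HeightOneSpectrum O)) :
    (FractionalIdeal O⁰ L)ˣ →* (V → Multiplicative (ZMod 2)) :=
  Pi.monoidHom fun v => (AddMonoidHom.toMultiplicative (Int.castAddHom (ZMod 2))).comp
    (cnt (L := L) (v : HeightOneSpectrum O))

theorem par_apply (V : Finset (HeightOneSpectrum O)) (J : (FractionalIdeal O⁰ L)ˣ) (v : V) :
    par V J v = Multiplicative.ofAdd
      ((FractionalIdeal.count L (v : HeightOneSpectrum O) (J : FractionalIdeal O⁰ L) : ℤ) : ZMod 2) :=
  rfl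

theorem par_surj (V : Finset (HeightOneSpectrum O)) (t : V → Multiplicative (ZMod 2)) :
    ∃ J ∈ (EI (V : Set (HeightOneSpectrum O)) : Subgroup (FractionalIdeal O⁰ L)ˣ), par V J = t := by
  classical
  set J : (FractionalIdeal O⁰ L)ˣ := ∏ v ∈ V, (Units.mk0 ((v.asIdeal : Ideal O) : FractionalIdeal O⁰ L)
    (FractionalIdeal.coeIdeal_ne_zero.2 v.ne_bot)) ^
      (if h : v ∈ V then (Multiplicative.toAdd (t ⟨v, h⟩)).val else 0) with hJ
  have hc : ∀ w : HeightOneSpectrum O, FractionalIdeal.count L w (J : FractionalIdeal O⁰ L) =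
      if h : w ∈ V then ((Multiplicative.toAdd (t ⟨w, h⟩)).val : ℤ) else 0 := by
    intro w
    rw [hJ, Units.coe_prod, FractionalIdeal.count_prod]
    · have e1 : ∀ v ∈ V, FractionalIdeal.count L w
          (((Units.mk0 ((v.asIdeal : Ideal O) : FractionalIdeal O⁰ L)
            (FractionalIdeal.coeIdeal_ne_zero.2 v.ne_bot)) ^
            (if h : v ∈ V then (Multiplicative.toAdd (t ⟨v, h⟩)).val else 0) :
              (FractionalIdeal O⁰ L)ˣ) : FractionalIdeal O⁰ L) =
          if v = w then (if h : w ∈ V then ((Multiplicative.toAdd (t ⟨w, h⟩)).val : ℤ) else 0) else 0 := by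
        intro v hv
        rw [Units.val_pow_eq_pow_val, FractionalIdeal.count_pow, Units.val_mk0,
          FractionalIdeal.count_maximal]
        by_cases hvw : v = w
        · subst hvw
          simp [hv]
        · simp [hvw]
      rw [Finset.sum_congr rfl e1, Finset.sum_ite_eq' V w]
      by_cases hw : w ∈ V
      · simp [hw]
      · simp [hw]
    · intro v _
      exact Units.ne_zero _
  refine ⟨J, ?_, ?_⟩
  · intro v hv
    rw [hc, dif_neg (by simpa using hv)]
    exact Even.zero
  · funext v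
    rw [par_apply, hc, dif_pos v.2]
    simp

theorem par_index (V : Finset (HeightOneSpectrum O))
    (h0 : (powMonoidHom 2 : (FractionalIdeal O⁰ L)ˣ →* (FractionalIdeal O⁰ L)ˣ).range.relIndex
      (EI (V : Set (HeightOneSpectrum O))) ≠ 0) :
    2 ^ V.card ≤ (powMonoidHom 2 : (FractionalIdeal O⁰ L)ˣ →* (FractionalIdeal O⁰ L)ˣ).range.relIndex
      (EI (V : Set (HeightOneSpectrum O))) := by
  set sI := (powMonoidHom 2 : (FractionalIdeal O⁰ L)ˣ →* (FractionalIdeal O⁰ L)ˣ).range
  set E : Subgroup (FractionalIdeal O⁰ L)ˣ := EI (V : Set (HeightOneSpectrum O)) with hE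
  set p := (par (L := L) V).comp E.subtype with hp
  have hs : Function.Surjective p := by
    intro t
    obtain ⟨J, hJ, h⟩ := par_surj (L := L) V t
    exact ⟨⟨J, hJ⟩, h⟩
  have h1 : p.ker.index = 2 ^ V.card := by
    rw [Subgroup.index_ker, MonoidHom.range_eq_top.2 hs, Subgroup.card_top, Nat.card_fun,
      Nat.card_eq_fintype_card (α := V), Fintype.card_coe]
    congr 1
    exact Nat.card_zmod 2
  have h2 : sI.subgroupOf E ≤ p.ker := by
    rintro ⟨J, hJ⟩ hJ2
    obtain ⟨I, hI⟩ := hJ2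
    rw [MonoidHom.mem_ker]
    funext v
    have hI' : J = I ^ 2 := hI.symm
    have : p ⟨J, hJ⟩ v = par V J v := rfl
    rw [this, par_apply, hI', Units.val_pow_eq_pow_val, FractionalIdeal.count_pow]
    push_cast
    have h2 : (2 : ZMod 2) = 0 := by decide
    rw [h2, zero_mul]
    rfl
  have h3 := Subgroup.index_dvd_of_le h2
  rw [h1] at h3
  exact Nat.le_of_dvd (Nat.pos_of_ne_zero h0) h3

/-- **Units and class groups.** -/
theorem even_lower [Finite (ClassGroup O)] (V : Finset (HeightOneSpectrum O)) (ν : Lˣ)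
    (hν : ∀ v : HeightOneSpectrum O, v.valuation L (ν : L) = 1)
    (hν2 : ¬ IsSquare (ν : L))
    (hfin : (powMonoidHom 2 : Lˣ →* Lˣ).range.relIndex
      (EL (V : Set (HeightOneSpectrum O))) ≠ 0) :
    2 ^ (V.card + 1) ≤ (powMonoidHom 2 : Lˣ →* Lˣ).range.relIndex
      (EL (V : Set (HeightOneSpectrum O))) := by
  have hE : (EL (V : Set (HeightOneSpectrum O)) : Subgroup Lˣ) =
      (EI (V : Set (HeightOneSpectrum O)) : Subgroup (FractionalIdeal O⁰ L)ˣ).comap
        (toPrincipalIdeal O L) := by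
    ext x
    constructor
    · intro hx v hv
      exact (ev_cnt v x).1 (hx v hv)
    · intro hx v hv
      exact (ev_cnt v x).2 (hx v hv)
  rw [hE] at hfin ⊢
  have hidx : (toPrincipalIdeal O L).range.index ≠ 0 := by
    rw [Subgroup.index]
    have : Finite ((FractionalIdeal O⁰ L)ˣ ⧸ (toPrincipalIdeal O L).range) :=
      Finite.of_equiv _ (ClassGroup.equiv (R := O) L).toEquiv
    exact Nat.card_ne_zero.2 ⟨⟨1⟩, this⟩
  rw [pow_succ, mul_comm]
  refine grp (toPrincipalIdeal O L) _ (2 ^ V.card) sq_inj ?_ hidx ν ?_ ?_ hfin (par_index V)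
  · rintro _ ⟨I, rfl⟩ v hv
    rw [powMonoidHom_apply, Units.val_pow_eq_pow_val, FractionalIdeal.count_pow]
    push_cast
    exact ⟨_, two_mul _⟩
  · apply Units.ext
    have hc : ∀ v : HeightOneSpectrum O, FractionalIdeal.count L v
        (toPrincipalIdeal O L ν : FractionalIdeal O⁰ L) = 0 := by
      intro v
      have h1 := hν v
      rw [val_cnt, ← WithZero.exp_zero, WithZero.exp_inj] at h1
      omega
    have h2 := FractionalIdeal.finprod_heightOneSpectrum_factorization' L
      (Units.ne_zero (toPrincipalIdeal O L ν))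
    simp only [hc, zpow_zero, finprod_one] at h2
    rw [← h2, Units.val_one]
  · rintro ⟨y, hy⟩
    exact hν2 ⟨(y : L), by rw [← hy]; simp [sq]⟩

end dd

end Run7.h502.PL
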