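import Pool.Agent.Run7.h502.PL.UNIa

/-!
# Project PRL (helper286), piece UNI (helper502): upper bounds

The elements of `Frac k[X]` with even valuations outside a finite set.
-/

set_option autoImplicit false
set_option linter.all false

open Polynomial IsDedekindDomain
open scoped nonZeroDivisors

namespace Run7.h502.PL

open Pool.Agent.N874.PP (Ov Ev Sq1)

theorem rel2 {G : Type} [CommGroup G] (H K : Subgroup G)
    (h : ∀ x ∈ K, ∀ y ∈ K, x ∉ H → y ∉ H → x * y ∈ H) :
    H.relIndex K ≠ 0 ∧ H.relIndex K ≤ 2 := by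
  by_cases hK : K ≤ H
  · rw [Subgroup.relIndex_eq_one.2 hK]
    omega
  · obtain ⟨a, ha, haH⟩ := Set.not_subset.1 hK
    have : H.relIndex K = 2 := by
      rw [Subgroup.relIndex_eq_two_iff]
      refine ⟨a, ha, fun b hb => ?_⟩
      by_cases hbH : b ∈ H
      · right
        refine ⟨hbH, fun hab => haH ?_⟩
        have := H.mul_mem (H.inv_mem hbH) hab
        simpa using this
      · left
        exact ⟨h b hb a ha hbH haH, hbH⟩
    rw [this]
    omega

section dd

variable {O L : Type} [CommRing O] [IsDedekindDomain O] [Field L] [Algebra O L]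
  [IsFractionRing O L]

theorem EL_mono {V W : Set (HeightOneSpectrum O)} (h : V ⊆ W) :
    (EL V : Subgroup Lˣ) ≤ EL W := fun _ hx v hv => hx v fun hv' => hv (h hv')

theorem EL_step (V W : Set (HeightOneSpectrum O)) (v₀ : HeightOneSpectrum O)
    (h : W ⊆ insert v₀ V) :
    (EL V : Subgroup Lˣ).relIndex (EL W) ≠ 0 ∧ (EL V : Subgroup Lˣ).relIndex (EL W) ≤ 2 := by
  refine rel2 _ _ fun x hx y hy hxV hyV => ?_
  have key : ∀ z : Lˣ, z ∈ (EL W : Subgroup Lˣ) → z ∉ (EL V : Subgroup Lˣ) → ¬ Ev v₀ (z : L) := by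
    intro z hz hzV hev
    apply hzV
    intro v hv
    by_cases hvv : v = v₀
    · rw [hvv]; exact hev
    · exact hz v fun hvW => by
        rcases h hvW with h1 | h1
        · exact hvv h1
        · exact hv h1
  intro v hv
  rw [Units.val_mul]
  refine (Pool.Agent.N539.PP.ev_mul v x.ne_zero y.ne_zero).2 ?_
  by_cases hvv : v = v₀
  · rw [hvv]
    exact iff_of_false (key x hx hxV) (key y hy hyV)
  · have hvW : v ∉ W := fun hvW => by
      rcases h hvW with h1 | h1
      · exact hvv h1
      · exact hv h1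
    exact iff_of_true (hx v hvW) (hy v hvW)

theorem sq_le_EL (V : Set (HeightOneSpectrum O)) :
    (powMonoidHom 2 : Lˣ →* Lˣ).range ≤ EL V := by
  rintro _ ⟨x, rfl⟩ v _
  exact ⟨(x : L), by simp⟩

/-- finitely many primes more: finite index -/
theorem EL_fin (V : Finset (HeightOneSpectrum O)) :
    (EL (∅ : Set (HeightOneSpectrum O)) : Subgroup Lˣ).relIndex (EL (V : Set (HeightOneSpectrum O)))
      ≠ 0 := by
  classical
  induction V using Finset.induction_on with
  | empty => simp
  | insert v V hv ih =>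
    have h1 := EL_step (L := L) (V : Set (HeightOneSpectrum O))
      ((insert v V : Finset (HeightOneSpectrum O)) : Set (HeightOneSpectrum O)) v (by simp)
    have h2 := Subgroup.relIndex_mul_relIndex (EL (∅ : Set (HeightOneSpectrum O)) : Subgroup Lˣ)
      (EL (V : Set (HeightOneSpectrum O)))
      (EL ((insert v V : Finset (HeightOneSpectrum O)) : Set (HeightOneSpectrum O)))
      (EL_mono (Set.empty_subset _)) (EL_mono (by simp))
    rw [← h2]
    exact mul_ne_zero ih h1.1

end dd

section kk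

variable {k K : Type} [Field k] [Field K] [Algebra k[X] K] [IsFractionRing k[X] K]

/-- even at all primes: a constant times a square -/
theorem sqc (n : ℕ) : ∀ (z : k[X]), z.natDegree = n → z ≠ 0 →
    (∀ v : HeightOneSpectrum k[X], Ev v (algebraMap k[X] K z)) →
    ∃ (c : k) (w : k[X]), c ≠ 0 ∧ z = C c * w ^ 2 := by
  induction n using Nat.strong_induction_on with
  | _ n ih =>
    intro z hn hz hev
    by_cases hu : IsUnit z
    · obtain ⟨c, hc, hcz⟩ := Polynomial.isUnit_iff.1 hu
      exact ⟨c, 1, hc.ne_zero, by rw [one_pow, mul_one, hcz]⟩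
    · obtain ⟨P, hP, hPz⟩ := WfDvdMonoid.exists_irreducible_factor hu hz
      set v : HeightOneSpectrum k[X] := ⟨Ideal.span {P}, (Ideal.span_singleton_prime hP.ne_zero).2 hP.prime,
        by rw [Ne, Ideal.span_singleton_eq_bot]; exact hP.ne_zero⟩ with hv
      have h1 : v.valuation K (algebraMap k[X] K z) < 1 :=
        (v.valuation_lt_one_iff_mem _).2 (Ideal.mem_span_singleton.2 hPz)
      have hzK : algebraMap k[X] K z ≠ 0 := by
        rw [Ne, FaithfulSMul.algebraMap_eq_zero_iff]; exact hz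
      have hv0 : v.valuation K (algebraMap k[X] K z) ≠ 0 := (Valuation.ne_zero_iff _).2 hzK
      have h2 := (Pool.Agent.N539.PP.ev_iff v hzK).1 (hev v)
      have h3 : v.valuation K (algebraMap k[X] K z) ≤ WithZero.exp (-((2 : ℕ) : ℤ)) := by
        rw [← WithZero.exp_log hv0, ← WithZero.exp_zero, WithZero.exp_lt_exp] at h1
        rw [← WithZero.exp_log hv0, WithZero.exp_le_exp]
        obtain ⟨m, hm⟩ := h2
        push_cast
        omega
      rw [HeightOneSpectrum.valuation_of_algebraMap, v.intValuation_le_pow_iff_mem] at h3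
      have h4 : P ^ 2 ∣ z := by
        rw [← Ideal.mem_span_singleton, ← Ideal.span_singleton_pow]
        exact h3
      obtain ⟨z', rfl⟩ := h4
      have hz' : z' ≠ 0 := right_ne_zero_of_mul hz
      have hP2 : P ^ 2 ≠ 0 := left_ne_zero_of_mul hz
      have hdeg : z'.natDegree < n := by
        rw [← hn, natDegree_mul hP2 hz', natDegree_pow]
        have := hP.natDegree_pos
        omega
      obtain ⟨c, w, hc, hw⟩ := ih _ hdeg z' rfl hz' (fun u => by
        have h5 := hev u
        rw [map_mul, map_pow, mul_comm] at h5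
        exact (Pool.Agent.N862.PP.ev_mul_sq u (by
          rw [Ne, FaithfulSMul.algebraMap_eq_zero_iff]; exact hP.ne_zero)).1 h5)
      exact ⟨c, P * w, hc, by rw [hw]; ring⟩

/-- at most two classes are even everywhere -/
theorem base2 [Finite k] :
    (powMonoidHom 2 : Kˣ →* Kˣ).range.relIndex (EL (∅ : Set (HeightOneSpectrum k[X]))) ≠ 0 ∧
    (powMonoidHom 2 : Kˣ →* Kˣ).range.relIndex (EL (∅ : Set (HeightOneSpectrum k[X]))) ≤ 2 := by
  classical
  haveI := Fintype.ofFinite k
  have hrep : ∀ x : Kˣ, x ∈ (EL (∅ : Set (HeightOneSpectrum k[X])) : Subgroup Kˣ) →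
      ∃ (c : k) (y : K), c ≠ 0 ∧ y ≠ 0 ∧ (x : K) = algebraMap k[X] K (C c) * y ^ 2 := by
    intro x hx
    obtain ⟨n, d, hd, hnd⟩ := IsFractionRing.div_surjective (A := k[X]) (x : K)
    have hd0 : d ≠ 0 := nonZeroDivisors.ne_zero hd
    have hdK : algebraMap k[X] K d ≠ 0 := by
      rw [Ne, FaithfulSMul.algebraMap_eq_zero_iff]; exact hd0
    have hn0 : n ≠ 0 := by
      rintro rfl
      rw [map_zero, zero_div] at hnd
      exact x.ne_zero hnd.symm
    have e1 : algebraMap k[X] K (n * d) = (x : K) * (algebraMap k[X] K d) ^ 2 := by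
      rw [← hnd, map_mul]
      field_simp
    obtain ⟨c, w, hc, hw⟩ := sqc (K := K) _ (n * d) rfl (mul_ne_zero hn0 hd0) (fun v => by
      rw [e1]
      exact (Pool.Agent.N862.PP.ev_mul_sq v hdK).2 (hx v (by simp)))
    have hw0 : w ≠ 0 := by
      rintro rfl
      rw [zero_pow two_ne_zero, mul_zero] at hw
      exact mul_ne_zero hn0 hd0 hw
    have hwK : algebraMap k[X] K w ≠ 0 := by
      rw [Ne, FaithfulSMul.algebraMap_eq_zero_iff]; exact hw0
    refine ⟨c, algebraMap k[X] K w / algebraMap k[X] K d, hc, div_ne_zero hwK hdK, ?_⟩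
    rw [hw, map_mul, map_pow] at e1
    field_simp
    rw [← e1]
  refine rel2 _ _ fun x hx y hy hxs hys => ?_
  obtain ⟨c, u, hc, hu, hcx⟩ := hrep x hx
  obtain ⟨c', u', hc', hu', hcy⟩ := hrep y hy
  have hns : ∀ (z : Kˣ) (c : k) (u : K), c ≠ 0 → u ≠ 0 → (z : K) = algebraMap k[X] K (C c) * u ^ 2 →
      IsSquare c → z ∈ (powMonoidHom 2 : Kˣ →* Kˣ).range := by
    rintro z c u hc hu hz ⟨e, rfl⟩
    have he : e ≠ 0 := by
      rintro rfl
      simp at hc
    have heK : algebraMap k[X] K (C e) ≠ 0 := by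
      rw [Ne, FaithfulSMul.algebraMap_eq_zero_iff, C_eq_zero]; exact he
    refine ⟨Units.mk0 (algebraMap k[X] K (C e) * u) (mul_ne_zero heK hu), ?_⟩
    apply Units.ext
    rw [powMonoidHom_apply, Units.val_pow_eq_pow_val, Units.val_mk0, hz, C_mul, map_mul]
    ring
  have h1 : ¬ IsSquare c := fun h => hxs (hns x c u hc hu hcx h)
  have h2 : ¬ IsSquare c' := fun h => hys (hns y c' u' hc' hu' hcy h)
  have h3 : IsSquare (c * c') := by
    rw [← quadraticChar_one_iff_isSquare (mul_ne_zero hc hc'), map_mul,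
      quadraticChar_neg_one_iff_not_isSquare.2 h1, quadraticChar_neg_one_iff_not_isSquare.2 h2]
    norm_num
  refine hns (x * y) (c * c') (u * u') (mul_ne_zero hc hc') (mul_ne_zero hu hu') ?_ h3
  rw [Units.val_mul, hcx, hcy, C_mul, map_mul]
  ring

/-- the primes which divide an element of `S` -/
def VS (S : Finset k[X]) : Set (HeightOneSpectrum k[X]) := {v | ∃ P ∈ S, P ∈ v.asIdeal}

theorem eq_of_mem {P : k[X]} (hP : Irreducible P) {v w : HeightOneSpectrum k[X]}
    (hv : P ∈ v.asIdeal) (hw : P ∈ w.asIdeal) : v = w := by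
  have key : ∀ u : HeightOneSpectrum k[X], P ∈ u.asIdeal → u.asIdeal = Ideal.span {P} := by
    intro u hu
    have h1 : Ideal.span {P} ≤ u.asIdeal := by
      rw [Ideal.span_singleton_le_iff_mem]; exact hu
    have hmax : (Ideal.span {P}).IsMaximal :=
      PrincipalIdealRing.isMaximal_of_irreducible hP
    exact (hmax.eq_of_le u.isPrime.ne_top h1).symm
  exact HeightOneSpectrum.ext (by rw [key v hv, key w hw])

theorem upper [Finite k] (S : Finset k[X]) (hS : ∀ P ∈ S, Irreducible P) :
    (powMonoidHom 2 : Kˣ →* Kˣ).range.relIndex (EL (VS S)) ≠ 0 ∧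
    (powMonoidHom 2 : Kˣ →* Kˣ).range.relIndex (EL (VS S)) ≤ 2 ^ (S.card + 1) := by
  classical
  induction S using Finset.induction_on with
  | empty =>
    have e : VS (∅ : Finset k[X]) = ∅ := by
      ext v; simp [VS]
    rw [e]
    simpa using base2 (k := k) (K := K)
  | insert P S hP ih =>
    obtain ⟨h1, h2⟩ := ih fun Q hQ => hS Q (Finset.mem_insert_of_mem hQ)
    have hPi := hS P (Finset.mem_insert_self _ _)
    set v₀ : HeightOneSpectrum k[X] := ⟨Ideal.span {P}, (Ideal.span_singleton_prime hPi.ne_zero).2 hPi.prime,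
        by rw [Ne, Ideal.span_singleton_eq_bot]; exact hPi.ne_zero⟩ with hv
    have h3 := EL_step (L := K) (VS S) (VS (insert P S)) v₀ (by
      rintro w ⟨Q, hQ, hQw⟩
      rcases Finset.mem_insert.1 hQ with rfl | hQ
      · left
        exact eq_of_mem hPi hQw (Ideal.mem_span_singleton_self _)
      · right
        exact ⟨Q, hQ, hQw⟩)
    have hmono : VS S ⊆ VS (insert P S) := by
      rintro w ⟨Q, hQ, hQw⟩
      exact ⟨Q, Finset.mem_insert_of_mem hQ, hQw⟩
    have h4 := Subgroup.relIndex_mul_relIndex (powMonoidHom 2 : Kˣ →* Kˣ).range (EL (VS S))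
      (EL (VS (insert P S))) (sq_le_EL _) (EL_mono hmono)
    rw [← h4, Finset.card_insert_of_notMem hP]
    refine ⟨mul_ne_zero h1 h3.1, ?_⟩
    rw [pow_succ 2 (S.card + 1)]
    exact Nat.mul_le_mul h2 h3.2

end kk

end Run7.h502.PL
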